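import Pool.Agent.V11218.CoDiag2

/-!
# Discrete Lindelöfness of the co-diagonal does not imply Lindelöfness for `T₁` spaces
-/

set_option autoImplicit false

namespace Pool.Agent.Results.MP_7165d8_gt.CoDiagonal

/-- A space is discretely Lindelöf if the closure of each discrete subset is Lindelöf. -/
def IsDiscretelyLindelof (X : Type*) [TopologicalSpace X] : Prop :=
  ∀ D : Set X, DiscreteTopology D → IsLindelof (closure D)

/-- There is a `T₁` space `X` such that the complement of the diagonal in `X × X` is
discretely Lindelöf, but `X` is not Lindelöf. -/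
theorem result : ∃ (X : Type) (_ : TopologicalSpace X), T1Space X ∧
    IsDiscretelyLindelof {p : X × X // p.1 ≠ p.2} ∧ ¬ LindelofSpace X :=
  Pool.Agent.V11218.CoDiag.exists_space

end Pool.Agent.Results.MP_7165d8_gt.CoDiagonal
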